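import Pool.Agent.NVC.Wall
import Pool.Agent.SymCone.Cpt

/-!
# NVC/Eff : the effective cone

PROOFS. Every `cl i Q` is `comb e z` for a unique `z` (`prime_rat`, `prime_type`: `N cl Q` is integral and
`cls (N θ) = N cl Q`, so it is a line bundle class), and `N z` is integral. `mem_eff_iff`: the cone spanned by the `cl i Q` corresponds
to the cone spanned by the `z` under the injective linear map `comb e` (`Submodule.span_image`-like, or elements of `PointedCone.hull` as
finite nonnegative combinations).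
`isEffectiveCone`. `integral`: `D` = set of the integral vectors `N z` (for all `Q` and `N ≥ 1` with `N z` integral); `z` and
`N z` span the same ray. `big`: `openPos` is open, so `x ∈ openPos B h` is a nonnegative combination of rational vectors in `openPos`
(see the proof of the same statement in `SYZC/CEff` or `exists_ratCone_nhds` in `H55/Cone/Final`), these are positive multiples of
integral vectors `v` with `q(v,v) > 0`, `q(v,A) > 0`, effective by `ConeAxioms.big`. `pair`: `0 < q(cl Q, A')` for `A' ∈ kahler i`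
(`prime_pos`), so `q(cl Q, v) ≥ 0` for nef `v` (continuity), and `nef_iff`.
`effective_mem`: `D.sum (m • cl Q) = k • v` gives `v = ∑ (m/k) cl Q ∈ effCone`.
-/

set_option autoImplicit false

open Module

namespace Pool.Agent.NV

open Pool.Agent.H93Cone Pool.Agent.SymCone

namespace HKClass

variable {n b : ℕ} {C : HKClass n b} {i : C.I} {ρ : ℕ} {e : Fin ρ → Vec b}

/-- The effective cone in coordinates. -/
def effCoord (C : HKClass n b) (i : C.I) {ρ : ℕ} (e : Fin ρ → Vec b) :
    PointedCone ℝ (Fin ρ → ℝ) :=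
  PointedCone.hull ℝ {z | comb e z ∈ Set.range (C.cl i)}

private theorem eff_smul_mem {V : Type*} [AddCommGroup V] [Module ℝ V] {P : PointedCone ℝ V}
    {t : ℝ} (ht : 0 ≤ t) {x : V} (hx : x ∈ P) : t • x ∈ P :=
  PointedCone.smul_mem P ht hx

/-- some multiple of the class of a prime divisor is in the lattice -/
private theorem eff_exists_int (hC : C.Axioms) (he : C.IsBasisNS i e) (Q : C.Prime i) :
    ∃ N : ℕ, 1 ≤ N ∧ ∃ z : Fin ρ → ℤ, (N : ℝ) • C.cl i Q = comb e (intVec z) := by
  obtain ⟨N, hN, hNl⟩ := hC.prime_rat i Q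
  obtain ⟨x, y, hper⟩ := hC.per_exists i
  have h1 := (hC.cls_range i x y hper (C.cl i Q)).1 (hC.prime_type i Q)
  have h2 : C.IsLine i ((N : ℝ) • C.cl i Q) := by
    refine ⟨hNl, (hC.cls_range i x y hper _).2 ⟨?_, ?_⟩⟩
    · rw [map_smul, LinearMap.smul_apply, h1.1, smul_zero]
    · rw [map_smul, LinearMap.smul_apply, h1.2, smul_zero]
  obtain ⟨z, hz⟩ := (he.line_iff _).1 h2
  exact ⟨N, hN, z, hz⟩

/-- every common multiple of rational coordinates -/
private theorem eff_multiple (v : Fin ρ → ℚ) :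
    ∃ m : ℕ, 1 ≤ m ∧ ∃ w : Fin ρ → ℤ, intVec w = (m : ℝ) • (fun k => ((v k : ℚ) : ℝ)) := by
  classical
  refine ⟨∏ k, (v k).den, ?_, ?_⟩
  · exact Nat.one_le_iff_ne_zero.2 (Finset.prod_ne_zero_iff.2 fun k _ => (v k).den_nz)
  · have h : ∀ k, ∃ t : ℤ, (t : ℝ) = ((∏ k, (v k).den : ℕ) : ℝ) * ((v k : ℚ) : ℝ) := by
      intro k
      obtain ⟨e, he⟩ : (v k).den ∣ ∏ k, (v k).den :=
        Finset.dvd_prod_of_mem (fun k => (v k).den) (Finset.mem_univ k)
      refine ⟨e * (v k).num, ?_⟩
      rw [he]
      have h1 := Rat.mul_den_eq_num (v k)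
      have h2 : (((v k).num : ℤ) : ℚ) * e = (v k) * (v k).den * e := by
        rw [h1]
      have h3 : ((e * (v k).num : ℤ) : ℚ) =
          (((v k).den * e : ℕ) : ℚ) * (v k : ℚ) := by
        push_cast
        linarith
      exact_mod_cast h3
    choose t ht using h
    refine ⟨t, ?_⟩
    funext k
    exact ht k

theorem mem_effCoord_iff (hC : C.Axioms) (he : C.IsBasisNS i e) (x : Fin ρ → ℝ) :
    x ∈ C.effCoord i e ↔ comb e x ∈ C.effCone i := by
  have hinj := comb_injective he.indep
  constructor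
  · intro hx
    induction hx using Submodule.span_induction with
    | mem y hy => exact Submodule.subset_span hy
    | zero => rw [comb_zero]; exact (C.effCone i).zero_mem
    | add y z _ _ hy hz => rw [comb_add]; exact (C.effCone i).add_mem hy hz
    | smul c y _ hy =>
      have h1 : comb e (c • y) = (c : ℝ) • comb e y := comb_smul e (c : ℝ) y
      rw [h1]
      exact eff_smul_mem c.2 hy
  · intro hx
    have key : ∀ v ∈ C.effCone i, ∃ z ∈ C.effCoord i e, comb e z = v := by
      intro v hv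
      induction hv using Submodule.span_induction with
      | mem v hv =>
        obtain ⟨Q, rfl⟩ := hv
        obtain ⟨N, hN, z, hz⟩ := eff_exists_int hC he Q
        have hN0 : (N : ℝ) ≠ 0 := by positivity
        have h2 : comb e ((N : ℝ)⁻¹ • intVec z) = C.cl i Q := by
          rw [comb_smul, ← hz, smul_smul, inv_mul_cancel₀ hN0, one_smul]
        exact ⟨(N : ℝ)⁻¹ • intVec z, Submodule.subset_span ⟨Q, h2.symm⟩, h2⟩
      | zero => exact ⟨0, (C.effCoord i e).zero_mem, comb_zero e⟩
      | add v w _ _ hv hw =>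
        obtain ⟨a, ha, rfl⟩ := hv
        obtain ⟨b, hb, rfl⟩ := hw
        exact ⟨a + b, (C.effCoord i e).add_mem ha hb, comb_add e a b⟩
      | smul c v _ hv =>
        obtain ⟨a, ha, rfl⟩ := hv
        exact ⟨(c : ℝ) • a, eff_smul_mem c.2 ha, comb_smul e (c : ℝ) a⟩
    obtain ⟨z, hz, hzx⟩ := key _ hx
    rw [← hinj hzx]
    exact hz

theorem effective_mem {v : Vec b} {k : ℕ} (hk : 1 ≤ k) (hv : C.Effective i ((k : ℝ) • v)) :
    v ∈ C.effCone i := by
  obtain ⟨D, hD⟩ := hv
  have hk0 : (k : ℝ) ≠ 0 := by positivity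
  have h1 : v = (k : ℝ)⁻¹ • ((k : ℝ) • v) := by
    rw [smul_smul, inv_mul_cancel₀ hk0, one_smul]
  rw [h1, ← hD]
  refine eff_smul_mem (inv_nonneg.2 (Nat.cast_nonneg _)) ?_
  refine Submodule.sum_mem _ fun Q _ => ?_
  exact eff_smul_mem (Nat.cast_nonneg _) (Submodule.subset_span ⟨Q, rfl⟩)

theorem isEffectiveCone (hC : C.Axioms) (hW : C.ConeAxioms) (he : C.IsBasisNS i e)
    {B : Matrix (Fin ρ) (Fin ρ) ℤ} (hB : ∀ k l, (B k l : ℝ) = C.q (e k) (e l)) {h : Fin ρ → ℤ}
    (hA : comb e (intVec h) ∈ C.kahler i) :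
    IsEffectiveCone B (intVec h) (walls C e) (C.effCoord i e) := by
  have hinj := comb_injective he.indep
  refine ⟨?_, ?_, ?_⟩
  · choose N hN z hz using eff_exists_int (C := C) (i := i) (e := e) hC he
    have hN0 : ∀ Q, (N Q : ℝ) ≠ 0 := fun Q => by
      have := hN Q
      positivity
    have hcl : ∀ Q, comb e ((N Q : ℝ)⁻¹ • intVec (z Q)) = C.cl i Q := fun Q => by
      rw [comb_smul, ← hz, smul_smul, inv_mul_cancel₀ (hN0 Q), one_smul]
    refine ⟨Set.range z, ?_⟩
    apply le_antisymm
    · refine Submodule.span_le.2 ?_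
      rintro x ⟨Q, hQ⟩
      have hx : x = (N Q : ℝ)⁻¹ • intVec (z Q) := hinj (by rw [hcl, hQ])
      show x ∈ PointedCone.hull ℝ _
      rw [hx]
      exact eff_smul_mem (inv_nonneg.2 (Nat.cast_nonneg _))
        (Submodule.subset_span ⟨_, ⟨Q, rfl⟩, rfl⟩)
    · refine Submodule.span_le.2 ?_
      rintro _ ⟨_, ⟨Q, rfl⟩, rfl⟩
      show intVec (z Q) ∈ C.effCoord i e
      rw [mem_effCoord_iff hC he, ← hz]
      exact eff_smul_mem (Nat.cast_nonneg _) (Submodule.subset_span ⟨Q, rfl⟩)
  · intro x hx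
    obtain ⟨S, hS1, hS2⟩ := Pool.Agent.H55.Cone.exists_ratCone_nhds isOpen_openPos hx
    have hxS := mem_of_mem_nhds hS2
    have hle : Pool.Agent.H55.Cone.ratCone S ≤ C.effCoord i e := by
      refine Submodule.span_le.2 ?_
      rintro _ ⟨v, hv, rfl⟩
      obtain ⟨m, hm, w, hw⟩ := eff_multiple v
      have h1 := hS1 v hv
      obtain ⟨r, hr⟩ : ∃ r : Fin ρ → ℝ, r = fun k => ((v k : ℚ) : ℝ) := ⟨_, rfl⟩
      have hrv : ratVec v = r := by rw [hr]; rfl
      rw [← hr] at hw
      rw [hrv] at h1
      show ratVec v ∈ C.effCoord i e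
      rw [hrv, mem_effCoord_iff hC he]
      obtain ⟨h2, h3⟩ := h1
      rw [form_comb hB] at h2 h3
      have hm0 : (0 : ℝ) < m := by exact_mod_cast hm
      have hwr : comb e (intVec w) = (m : ℝ) • comb e r := by rw [hw, comb_smul]
      obtain ⟨k, hk, hkE⟩ := hW.big i _ hA (comb e (intVec w))
        ((he.line_iff _).2 ⟨w, rfl⟩)
        (by
          rw [hwr, map_smul, map_smul, LinearMap.smul_apply, smul_eq_mul, smul_eq_mul]
          positivity)
        (by
          rw [hwr, hC.symm, map_smul, smul_eq_mul]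
          positivity)
      have h4 := effective_mem hk hkE
      rw [hwr] at h4
      have h5 : comb e r = (m : ℝ)⁻¹ • ((m : ℝ) • comb e r) := by
        rw [smul_smul, inv_mul_cancel₀ hm0.ne', one_smul]
      rw [h5]
      exact eff_smul_mem (inv_nonneg.2 hm0.le) h4
    exact hle hxS
  · intro x hx y hy
    rw [← nef_iff hC hW he hB hA] at hx
    rw [mem_effCoord_iff hC he] at hy
    rw [form_comb hB]
    have hcont : ∀ v : Vec b, Continuous fun u => C.q u v := by
      intro v
      exact (C.q.flip v).continuous_of_finiteDimensional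
    have hp : ∀ Q, 0 ≤ C.q (comb e x) (C.cl i Q) := by
      intro Q
      have hcl : IsClosed {u : Vec b | 0 ≤ C.q u (C.cl i Q)} :=
        isClosed_le continuous_const (hcont _)
      have hsub : C.kahler i ⊆ {u : Vec b | 0 ≤ C.q u (C.cl i Q)} := by
        intro A' hA'
        show 0 ≤ C.q A' (C.cl i Q)
        rw [hC.symm]
        exact (hC.prime_pos i Q A' hA').le
      exact closure_minimal hsub hcl hx
    obtain ⟨u, hu⟩ : ∃ u, u = comb e y := ⟨_, rfl⟩
    rw [← hu] at hy ⊢
    clear hu
    induction hy using Submodule.span_induction with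
    | mem y hy =>
      obtain ⟨Q, rfl⟩ := hy
      exact hp Q
    | zero => rw [map_zero]
    | add y z _ _ hy hz => rw [map_add]; exact add_nonneg hy hz
    | smul c y _ hy =>
      have h1 : C.q (comb e x) (c • y) = (c : ℝ) * C.q (comb e x) y := by
        have : C.q (comb e x) ((c : ℝ) • y) = (c : ℝ) * C.q (comb e x) y := by
          rw [map_smul, smul_eq_mul]
        exact this
      rw [h1]
      exact mul_nonneg c.2 hy

end HKClass

end Pool.Agent.NV
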