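import Pool.Agent.NVC.Arith
import Pool.Agent.NVC.Eff
import Pool.Agent.SymCone.Fin

/-!
# NVC/Fin : the cone conjecture for the projective members and their contractions
-/

set_option autoImplicit false

open Module

namespace Pool.Agent.NV

open Pool.Agent.H93Cone Pool.Agent.SymCone Pool.Agent.H92Cone Pool.Agent.H55.Cone

namespace HKClass

variable {n b : ℕ} {C : HKClass n b} {i : C.I} {m : ℕ}

/-- The cone conjecture for a contraction of a projective member on which all nef isotropic line
bundles have an effective multiple. -/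
theorem cone_of_nonvanishing (hC : C.Axioms) (hW : C.ConeAxioms)
    (hnv : ∀ α ∈ lattice b, α ≠ 0 → C.q α α = 0 → C.Nef i α →
      ∃ k : ℕ, 1 ≤ k ∧ C.Effective i ((k : ℝ) • α))
    (hproj : C.Projective i) {a : Vec b} {f : Fin m → Vec b} (hf : C.IsContraction i a f)
    {G : Subgroup (GL (Fin m) ℤ)} (hG : C.IsAutomorphismGroup i f G) :
    HasDomain G (C.nefEff i f) := by
  obtain ⟨ρ, e, he⟩ := exists_basis hC i
  obtain ⟨B, hB⟩ := exists_gram hC he
  obtain ⟨A, hAl, hA⟩ := hproj
  have hAline : C.IsLine i A := by
    obtain ⟨ω, -, hω⟩ := (hC.kahler_cls i A).1 hA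
    exact ⟨hAl, ω, hω⟩
  obtain ⟨h, rfl⟩ := (he.line_iff A).1 hAline
  have hyp := hyperbolic hC he hB hA
  obtain ⟨Γ, hΓ, hind⟩ := exists_arithmetic hC he hB hA
  have hWS := isWallSet hC hW he hB hA hind
  have hE := isEffectiveCone hC hW he hB hA
  obtain ⟨a0, ha0⟩ := (he.line_iff a).1 hf.line
  subst ha0
  have hinj := comb_injective he.indep
  choose z hz using fun l => (he.line_iff (f l)).1 (hf.basis l)
  let P : Matrix (Fin ρ) (Fin m) ℤ := fun k l => z l k
  have hP : ∀ x, comb e (pull P x) = comb f x := by
    intro x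
    have h1 : comb f x = ∑ l, x l • comb e (intVec (z l)) :=
      Finset.sum_congr rfl fun l _ => by rw [hz l]
    rw [h1]
    unfold comb
    simp only [Finset.smul_sum, smul_smul]
    rw [Finset.sum_comm]
    refine Finset.sum_congr rfl fun k _ => ?_
    rw [← Finset.sum_smul, pull_apply]
    congr 1
    refine Finset.sum_congr rfl fun l _ => ?_
    simp only [intVec, P]
    ring
  have hPinj : Function.Injective (pull P) := by
    intro x y hxy
    refine comb_injective hf.indep ?_
    rw [← hP, ← hP, hxy]
  have hrange : Set.range (pull P) = SymCone.faceSpace B (walls C e) (intVec a0) := by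
    ext y
    have h1 : y ∈ Set.range (pull P) ↔ comb e y ∈ Submodule.span ℝ (Set.range f) := by
      rw [mem_span_iff]
      constructor
      · rintro ⟨x, rfl⟩
        exact ⟨x, (hP x).symm⟩
      · rintro ⟨x, hx⟩
        exact ⟨x, hinj (by rw [hP, hx])⟩
    rw [h1, hf.range]
    constructor
    · rintro ⟨-, h2⟩ w hw h3
      rw [form_comb hB] at h3 ⊢
      exact h2 _ hw ((he.line_iff _).2 ⟨w, rfl⟩) h3
    · intro h2
      refine ⟨(he.mem_realNS _).2 ⟨y, rfl⟩, ?_⟩
      intro s hs hl h3
      obtain ⟨w, rfl⟩ := (he.line_iff s).1 hl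
      have h4 := h2 w hs
      rw [form_comb hB, form_comb hB] at h4
      exact h4 h3
  have hset : pull P ⁻¹' (chamber B (intVec h) (walls C e) ∩ (C.effCoord i e : Set (Fin ρ → ℝ))) =
      C.nefEff i f := by
    ext x
    show (pull P x ∈ chamber B (intVec h) (walls C e) ∧ pull P x ∈ C.effCoord i e) ↔
      (C.Nef i (comb f x) ∧ comb f x ∈ C.effCone i)
    rw [← nef_iff hC hW he hB hA, mem_effCoord_iff hC he, hP]
  obtain ⟨D', hD'⟩ := hE.integral
  obtain ⟨K, hK⟩ := hWS.bounded
  have hach : intVec a0 ∈ chamber B (intVec h) (walls C e) := (nef_iff hC hW he hB hA _).1 hf.nef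
  have hhch : intVec h ∈ chamber B (intVec h) (walls C e) :=
    ⟨⟨hyp.pos.le, hyp.pos.le⟩, fun w _ hw => hw⟩
  have haa : 0 < form B (intVec a0) (intVec a0) := by
    rw [form_comb hB]
    exact hf.big
  have key := SymCone.main hyp Γ hΓ.le hΓ.finite_index hΓ.side (walls C e) hWS.stable hWS.neg K hK
    hWS.ample (C.effCoord i e) D' hD' hE.big hE.pair a0 hach haa
    (fun v hv h1 _ h3 => by
      left
      rw [mem_effCoord_iff hC he]
      rw [form_comb hB] at h3
      obtain ⟨k, hk, hk'⟩ := hnv (comb e (intVec v)) ((he.line_iff _).2 ⟨v, rfl⟩).1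
        (fun h0 => hv (by
          have h4 : intVec v = (0 : Fin ρ → ℝ) := hinj (by rw [h0, comb_zero])
          funext k
          have h5 := congrFun h4 k
          simpa [intVec] using h5))
        h3 ((nef_iff hC hW he hB hA _).2 h1)
      exact effective_mem hk hk')
    P hPinj hrange G
    (fun g hg x hx => by
      rw [← nef_iff hC hW he hB hA, hP] at hx ⊢
      exact hG.nef g hg x hx)
    (fun g hg x hx => by
      rw [mem_effCoord_iff hC he, hP] at hx ⊢
      exact hG.eff g hg x hx)
    (fun g hg hgc hgf => by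
      obtain ⟨γ, hγM, hγ1, hγ2⟩ := hind g hg
      have hgi := hΓ.le hg
      obtain ⟨g', hg', h1⟩ := hG.torelli γ hγM
        (fun x y hp => by
          constructor
          · refine hγ1 x fun k => ?_
            rw [hC.symm, ← comb_single e k]
            exact (orth_period hC he hp _).1
          · refine hγ1 y fun k => ?_
            rw [hC.symm, ← comb_single e k]
            exact (orth_period hC he hp _).2)
        ⟨_, hA, by
          rw [hγ2]
          refine kahler_of_chamber hC hW he hB hA ?_ ?_ ?_
          · rw [← hgc]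
            exact ⟨_, hhch, rfl⟩
          · rw [form_act hgi]
            exact hyp.pos
          · intro w hw
            rw [form_act_intVec hgi]
            exact hWS.ample _ (hWS.stable _ (Γ.inv_mem hg) w hw)⟩
        (fun x => by
          have h2 : act g.val (pull P x) ∈ Set.range (pull P) := by
            rw [hrange, ← hgf, ← hrange]
            exact ⟨_, ⟨x, rfl⟩, rfl⟩
          obtain ⟨y, hy⟩ := h2
          exact ⟨y, by rw [← hP, hγ2, ← hy, hP]⟩)
      refine ⟨g', hg', fun x => hinj ?_⟩
      rw [hP, h1, ← hγ2, hP])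
  rw [← hset]
  exact key

end HKClass

end Pool.Agent.NV
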