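import Pool.Agent.NV.Adapter
import Pool.Agent.NV.Main
import Pool.Agent.NVC.Pub
import Pool.Agent.NVC.Fin

/-!
# NVC/Adapter : the cone conjecture in terms of the public definitions
-/

set_option autoImplicit false

open Module

namespace Pool.Agent.NV.Pub

open Pool.Agent.H93Cone Pool.Agent.H55.Cone

namespace Family

variable {n b m : ℕ} {C : Family n b}

theorem toHK_cone (hC : C.Axioms) (hW : C.ConeAxioms) : (C.toHK hC).ConeAxioms where
  neg := hW.mbm_neg
  mon := hW.mbm_mon
  ne := fun i x y hp A hA s hs h1 h2 => hW.mbm_kahler i x y hp A hA s hs ⟨h1, h2⟩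
  big := hW.big

theorem toHK_contraction (hC : C.Axioms) {i : C.I} {a : Vec b} {f : Fin m → Vec b}
    (hf : C.IsContraction i a f) : (C.toHK hC).IsContraction i a f where
  line := hf.line
  nef := hf.nef
  big := hf.big
  basis := hf.basis
  indep := hf.indep
  range := hf.range

theorem toHK_aut (hC : C.Axioms) {i : C.I} {f : Fin m → Vec b} {G : Subgroup (GL (Fin m) ℤ)}
    (hG : C.IsAutomorphismGroup i f G) : (C.toHK hC).IsAutomorphismGroup i f G where
  nef := hG.nef
  eff := hG.eff
  torelli := hG.torelli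

/-- The cone conjecture for projective hyperkähler manifolds with `b ≥ 5` and for their
contractions. -/
theorem cone_conjecture (hC : C.Axioms) (hW : C.ConeAxioms) (hb : 5 ≤ b) {i : C.I}
    (hi : C.Projective i) {a : Vec b} {f : Fin m → Vec b} (hf : C.IsContraction i a f)
    {G : Subgroup (GL (Fin m) ℤ)} (hG : C.IsAutomorphismGroup i f G) :
    HasDomain G (C.nefEff i f) :=
  HKClass.cone_of_nonvanishing (C.toHK_axioms hC) (toHK_cone hC hW)
    (fun α hα hα0 hαα hnef =>
      HKClass.nonvanishing (C.toHK_axioms hC) hb i α hα hα0 hαα hnef)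
    (by
      obtain ⟨A, hA, hA'⟩ := hi
      exact ⟨A, hA', hA⟩)
    (toHK_contraction hC hf) (toHK_aut hC hG)

end Family

end Pool.Agent.NV.Pub
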