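import Pool.Agent.NVC.Defs

/-!
# NVC/Basis : a basis of the Néron-Severi lattice

PROOF of `exists_basis`. `N = {v | C.IsLine i v}` is an additive subgroup of `lattice b` (by
`cls_range` it is `{v ∈ lattice b | q v x = 0, q v y = 0}` for `per i x y`, `per_exists`). `lattice b` is the image of `Fin b → ℤ`
(free of finite rank), so `N` is a finitely generated free `ℤ`-module (`Submodule.basisOfPid`, or `Module.Free`,
`Module.Finite` of submodules over a PID, `Module.finBasis`): a `ℤ`-basis `e_1, …, e_ρ`. Linear independence over `ℝ` of integral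
vectors which are independent over `ℤ`: over `ℚ` by clearing denominators (`LinearIndependent.iff_fractionRing`), then from `ℚ` to `ℝ`:
e.g. an injective rational matrix has a rational left inverse (`Matrix` / `LinearMap.exists_leftInverse_of_injective` for
`(Fin ρ → ℚ) → (Fin b → ℚ)`), whose base change is a left inverse over `ℝ`. Alternatively use the `ZLattice` library.
-/

set_option autoImplicit false

open Module

namespace Pool.Agent.NV

open Pool.Agent.H93Cone

theorem comb_add {b m : ℕ} (f : Fin m → Vec b) (x y : Fin m → ℝ) :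
    comb f (x + y) = comb f x + comb f y := by
  simp only [comb, Pi.add_apply, add_smul, Finset.sum_add_distrib]

theorem comb_smul {b m : ℕ} (f : Fin m → Vec b) (t : ℝ) (x : Fin m → ℝ) :
    comb f (t • x) = t • comb f x := by
  simp only [comb, Pi.smul_apply, smul_eq_mul, mul_smul, Finset.smul_sum]

theorem comb_zero {b m : ℕ} (f : Fin m → Vec b) : comb f 0 = 0 := by
  simp [comb]

theorem comb_single {b m : ℕ} (f : Fin m → Vec b) (k : Fin m) :
    comb f (Pi.single k 1) = f k := by
  simp [comb, Pi.single_apply]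

theorem comb_injective {b m : ℕ} {f : Fin m → Vec b} (hf : LinearIndependent ℝ f) :
    Function.Injective (comb f) := by
  intro x y h
  have h1 : ∑ k, (x k - y k) • f k = 0 := by
    simp only [sub_smul, Finset.sum_sub_distrib]
    exact sub_eq_zero.2 h
  funext k
  exact sub_eq_zero.1 (Fintype.linearIndependent_iff.1 hf _ h1 k)

theorem mem_span_iff {b m : ℕ} (f : Fin m → Vec b) (v : Vec b) :
    v ∈ Submodule.span ℝ (Set.range f) ↔ ∃ x, comb f x = v :=
  Submodule.mem_span_range_iff_exists_fun ℝ

/-- linear maps: `T (∑ x_k f_k) = ∑ x_k T f_k` -/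
theorem map_comb {b m : ℕ} (T : Vec b →ₗ[ℝ] Vec b) (f : Fin m → Vec b) (x : Fin m → ℝ) :
    T (comb f x) = comb (fun k => T (f k)) x := by
  simp [comb, map_sum]

/-- integral vectors which are independent over `ℤ` are independent over `ℝ` -/
theorem indep_intVec {b ρ : ℕ} {z : Fin ρ → (Fin b → ℤ)} (hz : LinearIndependent ℤ z) :
    LinearIndependent ℝ (fun k => intVec (z k) : Fin ρ → Vec b) := by
  have h1 : LinearIndependent ℤ (fun k => (fun j => ((z k j : ℤ) : ℚ)) : Fin ρ → (Fin b → ℚ)) := by
    let f : (Fin b → ℤ) →ₗ[ℤ] (Fin b → ℚ) :=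
      { toFun := fun w j => (w j : ℚ)
        map_add' := by intro u v; funext j; simp
        map_smul' := by intro u v; funext j; simp }
    have hf : LinearMap.ker f = ⊥ := by
      rw [LinearMap.ker_eq_bot]
      intro u v huv
      funext j
      have h0 : ((u j : ℤ) : ℚ) = ((v j : ℤ) : ℚ) := congrFun huv j
      exact_mod_cast h0
    exact hz.map' f hf
  have h2 : LinearIndependent ℚ
      (fun k => (fun j => ((z k j : ℤ) : ℚ)) : Fin ρ → (Fin b → ℚ)) :=
    (LinearIndependent.iff_fractionRing ℤ ℚ).1 h1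
  rw [Fintype.linearIndependent_iff] at h2 ⊢
  intro c hc k
  rw [← Module.forall_dual_apply_eq_zero_iff ℚ]
  intro φ
  refine h2 (fun k => φ (c k)) ?_ k
  funext j
  have h3 : ∑ k, c k * ((z k j : ℤ) : ℝ) = 0 := by
    have := congrFun hc j
    simpa [intVec, Finset.sum_apply] using this
  have h4 : φ (∑ k, c k * ((z k j : ℤ) : ℝ)) = 0 := by rw [h3, map_zero]
  rw [map_sum] at h4
  rw [Finset.sum_apply, Pi.zero_apply, ← h4]
  refine Finset.sum_congr rfl fun k _ => ?_
  have h5 : c k * ((z k j : ℤ) : ℝ) = ((z k j : ℤ) : ℚ) • c k := by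
    rw [Rat.smul_def, mul_comm]
    push_cast
    rfl
  rw [h5, map_smul, Pi.smul_apply, smul_eq_mul, smul_eq_mul, mul_comm]

namespace HKClass

variable {n b : ℕ} {C : HKClass n b}

/-- `e` is a `ℤ`-basis of the Néron-Severi lattice of `X_i`. -/
structure IsBasisNS (C : HKClass n b) (i : C.I) {ρ : ℕ} (e : Fin ρ → Vec b) : Prop where
  indep : LinearIndependent ℝ e
  line_iff : ∀ v, C.IsLine i v ↔ ∃ z : Fin ρ → ℤ, v = comb e (intVec z)

theorem exists_basis (hC : C.Axioms) (i : C.I) :
    ∃ (ρ : ℕ) (e : Fin ρ → Vec b), C.IsBasisNS i e := by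
  obtain ⟨x, y, hxy⟩ := hC.per_exists i
  have hint : ∀ w : Fin b → ℤ, (intVec w : Vec b) ∈ lattice b := fun w j => ⟨w j, rfl⟩
  have hline : ∀ w : Fin b → ℤ, C.IsLine i (intVec w) ↔
      C.q (intVec w) x = 0 ∧ C.q (intVec w) y = 0 := by
    intro w
    unfold IsLine
    rw [hC.cls_range i x y hxy]
    exact ⟨fun h => h.2, fun h => ⟨hint w, h⟩⟩
  have hadd : ∀ u v : Fin b → ℤ, (intVec (u + v) : Vec b) = intVec u + intVec v := by
    intro u v; funext j; simp [intVec]
  have hsmul : ∀ (c : ℤ) (v : Fin b → ℤ), (intVec (c • v) : Vec b) = (c : ℝ) • intVec v := by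
    intro c v; funext j; simp [intVec]
  let L : Submodule ℤ (Fin b → ℤ) :=
    { carrier := {w | C.q (intVec w) x = 0 ∧ C.q (intVec w) y = 0}
      zero_mem' := by
        have h0 : (intVec (0 : Fin b → ℤ) : Vec b) = 0 := by funext j; simp [intVec]
        simp [h0]
      add_mem' := by
        intro u v hu hv
        simp only [Set.mem_ofPred_eq] at hu hv ⊢
        rw [hadd, map_add, LinearMap.add_apply, LinearMap.add_apply, hu.1, hu.2, hv.1, hv.2]
        simp
      smul_mem' := by
        intro c v hv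
        simp only [Set.mem_ofPred_eq] at hv ⊢
        rw [hsmul, map_smul, LinearMap.smul_apply, LinearMap.smul_apply, hv.1, hv.2]
        simp }
  have hL : ∀ w, w ∈ L ↔ C.IsLine i (intVec w) := fun w => (hline w).symm
  let B := Module.finBasis ℤ L
  refine ⟨Module.finrank ℤ L, fun k => intVec (B k : Fin b → ℤ), ?_, ?_⟩
  · exact indep_intVec (B.linearIndependent.map' L.subtype (Submodule.ker_subtype L))
  · have hcomb : ∀ z : Fin (Module.finrank ℤ L) → ℤ,
        comb (fun k => (intVec (B k : Fin b → ℤ) : Vec b)) (intVec z) =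
          intVec ((∑ k, z k • B k : L) : Fin b → ℤ) := by
      intro z
      funext j
      simp [comb, intVec, Finset.sum_apply]
    intro v
    constructor
    · intro hv
      have hw : ∃ w : Fin b → ℤ, v = intVec w := by
        choose w hw using hv.1
        exact ⟨w, funext fun j => hw j⟩
      obtain ⟨w, rfl⟩ := hw
      have hwL : w ∈ L := (hL w).2 hv
      refine ⟨fun k => B.repr ⟨w, hwL⟩ k, ?_⟩
      rw [hcomb]
      have := B.sum_repr ⟨w, hwL⟩
      rw [this]
    · rintro ⟨z, rfl⟩
      rw [hcomb]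
      exact (hL _).1 (Subtype.mem _)

/-- the basis vectors are classes of line bundles -/
theorem IsBasisNS.line {i : C.I} {ρ : ℕ} {e : Fin ρ → Vec b} (he : C.IsBasisNS i e) (k : Fin ρ) :
    C.IsLine i (e k) := by
  rw [he.line_iff]
  refine ⟨Pi.single k 1, ?_⟩
  have h : intVec (Pi.single k 1 : Fin ρ → ℤ) = (Pi.single k 1 : Fin ρ → ℝ) := by
    funext j
    by_cases hj : j = k
    · subst hj; simp [intVec]
    · simp [intVec, hj]
  rw [h, comb_single]

/-- the real Néron-Severi space -/
theorem IsBasisNS.mem_realNS {i : C.I} {ρ : ℕ} {e : Fin ρ → Vec b} (he : C.IsBasisNS i e)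
    (v : Vec b) : v ∈ C.realNS i ↔ ∃ x, v = comb e x := by
  constructor
  · intro hv
    have h : C.realNS i ≤ Submodule.span ℝ (Set.range e) := by
      refine Submodule.span_le.2 ?_
      intro u hu
      obtain ⟨z, rfl⟩ := (he.line_iff u).1 hu
      exact (mem_span_iff e _).2 ⟨_, rfl⟩
    obtain ⟨x, hx⟩ := (mem_span_iff e v).1 (h hv)
    exact ⟨x, hx.symm⟩
  · rintro ⟨x, rfl⟩
    exact Submodule.sum_mem _ fun k _ => Submodule.smul_mem _ _
      (Submodule.subset_span (he.line k))

end HKClass

end Pool.Agent.NV
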