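import Pool.Agent.NV.Defs
import Pool.Agent.H55.Cone.Defs

/-!
# NVC/Defs : the nef cone, the effective cone and the automorphism group of a projective member of a
deformation class of hyperkähler manifolds, and of its birational contractions
-/

set_option autoImplicit false

open Module

namespace Pool.Agent.NV

open Pool.Agent.H93Cone Pool.Agent.H55.Cone

/-- The vector with coordinates `x` with respect to the vectors `f`. -/
noncomputable def comb {b m : ℕ} (f : Fin m → Vec b) (x : Fin m → ℝ) : Vec b := ∑ k, x k • f k

namespace HKClass

variable {n b : ℕ} (C : HKClass n b) {m : ℕ}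

/-- Further known properties of a deformation class of compact hyperkähler manifolds: the set of
MBM classes is symmetric and monodromy invariant and no Kähler class is orthogonal to an MBM class
of type `(1,1)` (Amerik-Verbitsky, Mongardi); line bundles with a class of positive square in the
positive cone have an effective multiple (Huybrechts). -/
structure ConeAxioms : Prop where
  neg : ∀ s ∈ C.S, -s ∈ C.S
  mon : ∀ γ ∈ C.Mon, ∀ s ∈ C.S, γ s ∈ C.S
  ne : ∀ i x y, C.per i x y → ∀ A ∈ C.kahler i, ∀ s ∈ C.S, C.q s x = 0 → C.q s y = 0 → C.q s A ≠ 0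
  big : ∀ i, ∀ A ∈ C.kahler i, ∀ v, C.IsLine i v → 0 < C.q v v → 0 < C.q v A →
    ∃ k : ℕ, 1 ≤ k ∧ C.Effective i ((k : ℝ) • v)

/-- The real Néron-Severi space of `X_i`, spanned by the classes of line bundles. -/
def realNS (i : C.I) : Submodule ℝ (Vec b) := Submodule.span ℝ {v | C.IsLine i v}

/-- The effective cone of `X_i`, spanned by the classes of prime divisors. -/
def effCone (i : C.I) : PointedCone ℝ (Vec b) := PointedCone.hull ℝ (Set.range (C.cl i))

/-- A birational contraction `π : X_i → M` onto a normal projective variety: `a` is the pull back of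
an ample class, i.e. a nef class with `q(a,a) > 0`, and `f` is a basis of the pull back of the
lattice `NS(M)` of line bundles on `M`; it spans the space of the classes orthogonal to all MBM
classes (of type `(1,1)`) which are orthogonal to `a`. The case `M = X_i`: `a` is ample, `f` is a
basis of `NS(X_i)`. -/
structure IsContraction (i : C.I) (a : Vec b) (f : Fin m → Vec b) : Prop where
  line : C.IsLine i a
  nef : C.Nef i a
  big : 0 < C.q a a
  basis : ∀ k, C.IsLine i (f k)
  indep : LinearIndependent ℝ f
  range : ∀ v, v ∈ Submodule.span ℝ (Set.range f) ↔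
    v ∈ C.realNS i ∧ ∀ s ∈ C.S, C.IsLine i s → C.q a s = 0 → C.q v s = 0

/-- The nef and effective cone `Nef(M) ∩ Eff(M)`, in coordinates with respect to `f`. -/
def nefEff (i : C.I) (f : Fin m → Vec b) : Set (Fin m → ℝ) :=
  {x | C.Nef i (comb f x) ∧ comb f x ∈ C.effCone i}

/-- `G` is the action of the automorphism group of `M` on the lattice `NS(M)`: it preserves the nef
and the effective cone of `M`, and it contains the actions of all monodromy operators which fix the
period of `X_i`, map some Kähler class to a Kähler class and preserve the real space of `NS(M)`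
(these are induced by automorphisms of `X_i`, by the Torelli theorem, which descend to `M`). -/
structure IsAutomorphismGroup (i : C.I) (f : Fin m → Vec b) (G : Subgroup (GL (Fin m) ℤ)) :
    Prop where
  nef : ∀ g ∈ G, ∀ x, C.Nef i (comb f x) → C.Nef i (comb f (act g.val x))
  eff : ∀ g ∈ G, ∀ x, comb f x ∈ C.effCone i → comb f (act g.val x) ∈ C.effCone i
  torelli : ∀ γ ∈ C.Mon, (∀ x y, C.per i x y → γ x = x ∧ γ y = y) →
    (∃ A ∈ C.kahler i, γ A ∈ C.kahler i) →
    (∀ x, ∃ y, γ (comb f x) = comb f y) →
    ∃ g ∈ G, ∀ x, comb f (act g.val x) = γ (comb f x)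

end HKClass

end Pool.Agent.NV
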