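import Pool.Agent.NVC.Basis
import Pool.Agent.SymCone.Setting
import Pool.Agent.NV.Hodge

/-!
# NVC/Gram : the Gram matrix

PROOFS. `exists_gram`: `e k ∈ lattice b` (`IsBasisNS.line`), `integral`. `form_comb`: bilinearity (`form` is
`x ⬝ᵥ (B.map Int.cast).mulVec y = ∑_k x_k ∑_l B_kl y_l`). `neg_of_orth`: the Hodge index theorem
`hodge_pos` of NV/Hodge.
`hyperbolic`: `symm`, `pos` from `kahler_iff` and `form_comb`; `neg`: `v = comb e x` is orthogonal to `A` and, by
`cls_range`, to the period; `v ≠ 0` by `comb_injective`.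
-/

set_option autoImplicit false

open Module

namespace Pool.Agent.NV

open Pool.Agent.H93Cone Pool.Agent.SymCone

namespace HKClass

variable {n b : ℕ} {C : HKClass n b} {i : C.I} {ρ : ℕ} {e : Fin ρ → Vec b}

theorem exists_gram (hC : C.Axioms) (he : C.IsBasisNS i e) :
    ∃ B : Matrix (Fin ρ) (Fin ρ) ℤ, ∀ k l, (B k l : ℝ) = C.q (e k) (e l) := by
  choose B hB using fun k l => hC.integral (e k) (he.line k).1 (e l) (he.line l).1
  exact ⟨B, fun k l => (hB k l).symm⟩

theorem form_comb {B : Matrix (Fin ρ) (Fin ρ) ℤ} (hB : ∀ k l, (B k l : ℝ) = C.q (e k) (e l))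
    (x y : Fin ρ → ℝ) : form B x y = C.q (comb e x) (comb e y) := by
  unfold form comb
  simp only [map_sum, LinearMap.sum_apply, map_smul, LinearMap.smul_apply, smul_eq_mul,
    dotProduct, Matrix.mulVec, Matrix.map_apply]
  simp only [hB, Finset.mul_sum]
  rw [Finset.sum_comm]
  refine Finset.sum_congr rfl fun l _ => Finset.sum_congr rfl fun k _ => ?_
  ring

/-- classes of line bundles, and their real combinations, are orthogonal to the period -/
theorem orth_period (hC : C.Axioms) (he : C.IsBasisNS i e) {x y : Vec b} (hp : C.per i x y)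
    (z : Fin ρ → ℝ) : C.q (comb e z) x = 0 ∧ C.q (comb e z) y = 0 := by
  have h : ∀ k, C.q (e k) x = 0 ∧ C.q (e k) y = 0 := fun k =>
    (hC.cls_range i x y hp (e k)).1 (he.line k).2
  unfold comb
  constructor
  · simp only [map_sum, LinearMap.sum_apply, map_smul, LinearMap.smul_apply, (h _).1, smul_zero,
      Finset.sum_const_zero]
  · simp only [map_sum, LinearMap.sum_apply, map_smul, LinearMap.smul_apply, (h _).2, smul_zero,
      Finset.sum_const_zero]

theorem neg_of_orth (hC : C.Axioms) {x y A v : Vec b} (hp : C.per i x y) (hA : A ∈ C.kahler i)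
    (h1 : C.q v x = 0) (h2 : C.q v y = 0) (h3 : C.q v A = 0) (hv : v ≠ 0) : C.q v v < 0 := by
  obtain ⟨hAx, hAy, hAA, -, -⟩ := (hC.kahler_iff i x y hp A hA A).1 hA
  exact hodge_pos hC (hC.per_pos i x y hp) hAx hAy hAA h1 h2 h3 hv

theorem hyperbolic (hC : C.Axioms) (he : C.IsBasisNS i e) {B : Matrix (Fin ρ) (Fin ρ) ℤ}
    (hB : ∀ k l, (B k l : ℝ) = C.q (e k) (e l)) {h : Fin ρ → ℤ}
    (hA : comb e (intVec h) ∈ C.kahler i) : Hyperbolic B (intVec h) := by
  obtain ⟨x, y, hp⟩ := hC.per_exists i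
  obtain ⟨hAx, hAy, hAA, -, -⟩ := (hC.kahler_iff i x y hp _ hA _).1 hA
  refine ⟨?_, ?_, ?_⟩
  · refine Matrix.IsSymm.ext fun k l => ?_
    have h1 : ((B l k : ℤ) : ℝ) = ((B k l : ℤ) : ℝ) := by
      rw [hB, hB, hC.symm]
    exact_mod_cast h1
  · rw [form_comb hB]
    exact hAA
  · intro z hz hz0
    rw [form_comb hB] at hz ⊢
    obtain ⟨h1, h2⟩ := orth_period hC he hp z
    refine neg_of_orth hC hp hA h1 h2 (by rw [hC.symm]; exact hz) ?_
    intro h0
    apply hz0
    apply comb_injective he.indep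
    rw [h0, comb_zero]

end HKClass

end Pool.Agent.NV
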