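import Pool.Agent.NVC.Gram
import Pool.Agent.SymCone.Basic

/-!
# NVC/Hom : extension of isometries of the Néron-Severi lattice by the identity

(The same proof as in `SYZC/CHom`, with `π y = B⁻¹ (q(y, e_k))_k`.)
PROOF. `B` is invertible over `ℝ` (`Hyperbolic`: the form is nondegenerate). Let `π : Vec b →ₗ[ℝ] (Fin ρ → ℝ)` be
`π y = B⁻¹ (q(y, e_k))_k`, so that `q(y, comb e x) = form B (π y) x`, `π (comb e x) = x`; put `φ g y = y + comb e (act g (π y) - π y)`.
* `π (φ g y) = act g (π y)`, hence `φ (g h) = φ g ∘ φ h`, `φ 1 = id`: `φ` is a homomorphism to linear automorphisms.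
* If `q(y, e_k) = 0` for all `k` then `π y = 0`, `φ g y = y`. `φ g (comb e x) = comb e (act g x)`.
* `d = |det B| ≥ 1`: for `y ∈ lattice b`, `d (π y)` is integral (adjugate matrix; `integral`). If `g ≡ 1 mod d`,
  `act g (π y) - π y = ((g - 1)/d) (d π y)` is integral, so `φ g y ∈ lattice b` (the `e_k` are integral); also for `g⁻¹` (which is `≡ 1` too; or
  only `φ g x ∈ lattice ↔ x ∈ lattice` via `φ g⁻¹ = (φ g)⁻¹`).
* `φ g` is an isometry for `g ∈ SymCone.isoms B`: `y = y₀ + comb e (π y)`, `y₀` orthogonal to the `e_k`.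
-/

set_option autoImplicit false

open Module

namespace Pool.Agent.NV

open Pool.Agent.H93Cone Pool.Agent.SymCone

namespace HKClass

variable {n b : ℕ} {C : HKClass n b} {i : C.I} {ρ : ℕ} {e : Fin ρ → Vec b}


/-- `comb e` as a linear map. -/
private noncomputable def combL {b ρ : ℕ} (e : Fin ρ → Vec b) : (Fin ρ → ℝ) →ₗ[ℝ] Vec b where
  toFun := comb e
  map_add' := comb_add e
  map_smul' := comb_smul e

/-- The coordinates of the orthogonal projection. -/
private noncomputable def projL (C : HKClass n b) (e : Fin ρ → Vec b) (B : Matrix (Fin ρ) (Fin ρ) ℤ) :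
    Vec b →ₗ[ℝ] (Fin ρ → ℝ) :=
  (Matrix.mulVecLin (B.map (Int.cast : ℤ → ℝ))⁻¹) ∘ₗ (LinearMap.pi fun k => C.q.flip (e k))

private theorem projL_apply (y : Vec b) (B : Matrix (Fin ρ) (Fin ρ) ℤ) :
    projL C e B y = (B.map (Int.cast : ℤ → ℝ))⁻¹.mulVec fun k => C.q y (e k) := rfl

private theorem det_ne {B : Matrix (Fin ρ) (Fin ρ) ℤ} {h : Fin ρ → ℝ} (hyp : Hyperbolic B h) :
    (B.map (Int.cast : ℤ → ℝ)).det ≠ 0 := by
  intro h0
  obtain ⟨v, hv, hv0⟩ := Matrix.exists_mulVec_eq_zero_iff.2 h0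
  have h1 : ∀ x, form B x v = 0 := fun x => by
    rw [form, hv0, dotProduct_zero]
  exact absurd (h1 v) (hyp.neg v (h1 h) hv).ne

private theorem det_cast (B : Matrix (Fin ρ) (Fin ρ) ℤ) :
    (B.map (Int.cast : ℤ → ℝ)).det = (B.det : ℝ) := by
  have := (RingHom.map_det (Int.castRingHom ℝ) B).symm
  exact this

private theorem mulVec_projL {B : Matrix (Fin ρ) (Fin ρ) ℤ} {h : Fin ρ → ℝ}
    (hyp : Hyperbolic B h) (y : Vec b) :
    (B.map (Int.cast : ℤ → ℝ)).mulVec (projL C e B y) = fun k => C.q y (e k) := by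
  rw [projL_apply, Matrix.mulVec_mulVec, Matrix.mul_nonsing_inv _ (det_ne hyp).isUnit,
    Matrix.one_mulVec]

private theorem q_comb (y : Vec b) (x : Fin ρ → ℝ) :
    C.q y (comb e x) = x ⬝ᵥ fun k => C.q y (e k) := by
  simp only [comb, map_sum, map_smul, smul_eq_mul, dotProduct]

private theorem q_proj {B : Matrix (Fin ρ) (Fin ρ) ℤ} {h : Fin ρ → ℝ}
    (hyp : Hyperbolic B h) (y : Vec b) (x : Fin ρ → ℝ) :
    C.q y (comb e x) = form B x (projL C e B y) := by
  rw [q_comb, form, mulVec_projL hyp]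

private theorem projL_comb (hC : C.Axioms) {B : Matrix (Fin ρ) (Fin ρ) ℤ}
    (hB : ∀ k l, (B k l : ℝ) = C.q (e k) (e l)) {h : Fin ρ → ℝ} (hyp : Hyperbolic B h)
    (x : Fin ρ → ℝ) : projL C e B (comb e x) = x := by
  have h1 : (fun k => C.q (comb e x) (e k)) = (B.map (Int.cast : ℤ → ℝ)).mulVec x := by
    funext k
    rw [hC.symm, q_comb]
    simp only [Matrix.mulVec, dotProduct, Matrix.map_apply, hB]
    exact Finset.sum_congr rfl fun l _ => mul_comm _ _
  rw [projL_apply, h1, Matrix.mulVec_mulVec, Matrix.nonsing_inv_mul _ (det_ne hyp).isUnit,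
    Matrix.one_mulVec]

private theorem act_mul' (M N : Matrix (Fin ρ) (Fin ρ) ℤ) (x : Fin ρ → ℝ) :
    act (M * N) x = act M (act N x) := by
  have h : (M * N).map (Int.cast : ℤ → ℝ) = M.map Int.cast * N.map Int.cast := by
    ext k l
    simp [Matrix.mul_apply]
  simp only [act, Matrix.mulVecLin_apply, Matrix.mulVec_mulVec, h]

private theorem act_one' (x : Fin ρ → ℝ) : act (1 : Matrix (Fin ρ) (Fin ρ) ℤ) x = x := by
  simp only [act, Matrix.mulVecLin_apply, Matrix.map_one _ Int.cast_zero Int.cast_one,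
    Matrix.one_mulVec]

/-- The extension by the identity. -/
private noncomputable def extEnd (e : Fin ρ → Vec b) (π : Vec b →ₗ[ℝ] (Fin ρ → ℝ))
    (M : Matrix (Fin ρ) (Fin ρ) ℤ) : Vec b →ₗ[ℝ] Vec b :=
  LinearMap.id + combL e ∘ₗ (act M - LinearMap.id) ∘ₗ π

private theorem extEnd_apply (π : Vec b →ₗ[ℝ] (Fin ρ → ℝ)) (M : Matrix (Fin ρ) (Fin ρ) ℤ)
    (y : Vec b) : extEnd e π M y = y + comb e (act M (π y) - π y) := rfl

private theorem proj_extEnd {π : Vec b →ₗ[ℝ] (Fin ρ → ℝ)} (hπ : ∀ x, π (comb e x) = x)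
    (M : Matrix (Fin ρ) (Fin ρ) ℤ) (y : Vec b) : π (extEnd e π M y) = act M (π y) := by
  rw [extEnd_apply, map_add, hπ]
  abel

private noncomputable def extHom {π : Vec b →ₗ[ℝ] (Fin ρ → ℝ)}
    (hπ : ∀ x, π (comb e x) = x) : Matrix (Fin ρ) (Fin ρ) ℤ →* Module.End ℝ (Vec b) where
  toFun := extEnd e π
  map_one' := by
    apply LinearMap.ext
    intro y
    rw [extEnd_apply, act_one', sub_self, comb_zero, add_zero]
    rfl
  map_mul' M N := by
    apply LinearMap.ext
    intro y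
    rw [Module.End.mul_apply, extEnd_apply π M, proj_extEnd hπ, extEnd_apply, extEnd_apply, act_mul',
      add_assoc, ← comb_add]
    congr 2
    abel

/-- `det B • π y` is integral for integral `y`. -/
private theorem projL_int (hC : C.Axioms) (he : C.IsBasisNS i e) {B : Matrix (Fin ρ) (Fin ρ) ℤ}
    {h : Fin ρ → ℝ} (hyp : Hyperbolic B h) {y : Vec b} (hy : y ∈ lattice b) (k : Fin ρ) :
    ∃ m : ℤ, (B.det : ℝ) * projL C e B y k = m := by
  choose w hw using fun k => hC.integral y hy (e k) (he.line k).1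
  refine ⟨(B.adjugate.mulVec w) k, ?_⟩
  have h1 : (B.map (Int.cast : ℤ → ℝ))⁻¹ = (B.det : ℝ)⁻¹ • (B.adjugate.map (Int.cast : ℤ → ℝ)) := by
    rw [Matrix.inv_def, Ring.inverse_eq_inv', det_cast]
    congr 1
    exact (RingHom.map_adjugate (Int.castRingHom ℝ) B).symm
  have h2 : (fun k => C.q y (e k)) = fun k => (w k : ℝ) := funext hw
  have h3 : (B.det : ℝ) ≠ 0 := by rw [← det_cast]; exact det_ne hyp
  rw [projL_apply, h1, h2, Matrix.smul_mulVec, Pi.smul_apply, smul_eq_mul, ← mul_assoc,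
    mul_inv_cancel₀ h3, one_mul]
  simp only [Matrix.mulVec, dotProduct, Matrix.map_apply]
  push_cast
  rfl

private theorem comb_int (he : C.IsBasisNS i e) {x : Fin ρ → ℝ} (hx : ∀ k, ∃ m : ℤ, x k = m) :
    comb e x ∈ lattice b := by
  choose m hm using hx
  have h1 : x = intVec m := funext hm
  exact ((he.line_iff (comb e x)).2 ⟨m, by rw [← h1]⟩).1

theorem exists_hom (hC : C.Axioms) (he : C.IsBasisNS i e) {B : Matrix (Fin ρ) (Fin ρ) ℤ}
    (hB : ∀ k l, (B k l : ℝ) = C.q (e k) (e l)) {h : Fin ρ → ℝ} (hyp : Hyperbolic B h) :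
    ∃ φ : GL (Fin ρ) ℤ →* (Vec b ≃ₗ[ℝ] Vec b),
      (∀ g y, (∀ k, C.q y (e k) = 0) → φ g y = y) ∧
      (∀ g x, φ g (comb e x) = comb e (act g.val x)) ∧
      ∃ d : ℕ, 1 ≤ d ∧ ∀ g ∈ SymCone.isoms B, (∀ k l, (d : ℤ) ∣ g.val k l - (1 : Matrix _ _ ℤ) k l) →
        φ g ∈ C.isoms := by
  have hπ : ∀ x, projL C e B (comb e x) = x := projL_comb hC hB hyp
  set π := projL C e B with hπdef
  let Φ : GL (Fin ρ) ℤ →* (Vec b ≃ₗ[ℝ] Vec b) :=
    (LinearMap.GeneralLinearGroup.generalLinearEquiv ℝ (Vec b)).toMonoidHom.comp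
      (Units.map (extHom hπ))
  have hΦ : ∀ g y, Φ g y = y + comb e (act g.val (π y) - π y) := fun g y => rfl
  have hsub : ∀ u v, comb e (u - v) = comb e u - comb e v := fun u v => (combL e).map_sub u v
  refine ⟨Φ, fun g y hy => ?_, fun g x => ?_, ?_⟩
  · have h0 : π y = 0 := by
      rw [hπdef, projL_apply]
      have h1 : (fun k => C.q y (e k)) = 0 := funext hy
      rw [h1, Matrix.mulVec_zero]
    rw [hΦ, h0, map_zero, sub_zero, comb_zero, add_zero]
  · rw [hΦ, hπ, ← comb_add]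
    congr 1
    abel
  · have hdet : (B.det : ℝ) ≠ 0 := by rw [← det_cast]; exact det_ne hyp
    have hdet' : B.det ≠ 0 := by exact_mod_cast hdet
    refine ⟨B.det.natAbs, Nat.one_le_iff_ne_zero.2 (Int.natAbs_ne_zero.2 hdet'), ?_⟩
    have hL : ∀ g : GL (Fin ρ) ℤ,
        (∀ k l, ((B.det.natAbs : ℕ) : ℤ) ∣ g.val k l - (1 : Matrix _ _ ℤ) k l) →
        ∀ x ∈ lattice b, Φ g x ∈ lattice b := by
      intro g hg x hx
      rw [hΦ]
      refine (lattice b).add_mem hx (comb_int he fun k => ?_)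
      choose m hm using projL_int hC he hyp hx
      have hg' : ∀ k l, B.det ∣ g.val k l - (1 : Matrix _ _ ℤ) k l := fun k l =>
        Int.natAbs_dvd.1 (hg k l)
      choose t ht using hg' k
      refine ⟨∑ l, t l * m l, ?_⟩
      have h1 : π x k = ∑ l, (((1 : Matrix (Fin ρ) (Fin ρ) ℤ) k l : ℤ) : ℝ) * π x l := by
        simp only [Matrix.one_apply]
        push_cast
        simp
      have h2 : act g.val (π x) k = ∑ l, ((g.val k l : ℤ) : ℝ) * π x l := rfl
      rw [Pi.sub_apply, h2, h1, ← Finset.sum_sub_distrib]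
      push_cast
      refine Finset.sum_congr rfl fun l _ => ?_
      rw [← sub_mul, ← Int.cast_sub, ht l, ← hm l]
      push_cast
      ring
    refine fun g hg hgd => ⟨fun x y => ?_, fun x => ⟨fun hx => ?_, hL g hgd x⟩⟩
    · have hsym := hyp.comm
      have h2 : ∀ u w, C.q (u - comb e (π u)) (comb e w) = 0 := fun u w => by
        rw [map_sub, LinearMap.sub_apply, q_proj hyp, q_proj hyp, ← hπdef, hπ, sub_self]
      have h2' : ∀ u w, C.q (comb e w) (u - comb e (π u)) = 0 := fun u w => by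
        rw [hC.symm]; exact h2 u w
      have h3 : ∀ u, Φ g u = (u - comb e (π u)) + comb e (act g.val (π u)) := fun u => by
        rw [hΦ, hsub]; abel
      have h5 : ∀ u v, C.q (comb e u) (comb e v) = form B u v := fun u v =>
        (form_comb hB u v).symm
      have h4 : ∀ u v, C.q u v = C.q (u - comb e (π u)) (v - comb e (π v)) +
          form B (π u) (π v) := by
        intro u v
        have e1 : C.q u v = C.q ((u - comb e (π u)) + comb e (π u))
            ((v - comb e (π v)) + comb e (π v)) := by simp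
        rw [e1, map_add (C.q (u - comb e (π u) + comb e (π u))), map_add C.q, LinearMap.add_apply,
          LinearMap.add_apply, h2, h2', h5]
        ring
      rw [h4 x y, h3 x, h3 y]
      rw [map_add (C.q (x - comb e (π x) + comb e (act g.val (π x)))), map_add C.q,
        LinearMap.add_apply, LinearMap.add_apply, h2, h2', h5, form_act hg]
      ring
    · have hinv : ∀ k l, ((B.det.natAbs : ℕ) : ℤ) ∣ (g⁻¹).val k l - (1 : Matrix _ _ ℤ) k l := by
        intro k l
        have e1 : (g⁻¹).val - 1 = -((g⁻¹).val * (g.val - 1)) := by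
          rw [mul_sub, mul_one, ← Units.val_mul, inv_mul_cancel, Units.val_one]
          abel
        have e2 : (g⁻¹).val k l - (1 : Matrix _ _ ℤ) k l =
            -((g⁻¹).val * (g.val - 1)) k l := by
          rw [← Matrix.sub_apply, e1]; rfl
        rw [e2, dvd_neg, Matrix.mul_apply]
        refine Finset.dvd_sum fun j _ => Dvd.dvd.mul_left ?_ _
        rw [Matrix.sub_apply]
        exact hgd j l
      have h1 := hL g⁻¹ hinv _ hx
      have h2 : Φ g⁻¹ (Φ g x) = x := by
        have h3 : (Φ g⁻¹ * Φ g) x = x := by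
          rw [← map_mul, inv_mul_cancel, map_one]; rfl
        exact h3
      rwa [h2] at h1

end HKClass

end Pool.Agent.NV
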