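import Pool.Agent.NVC.Adapter

namespace Pool.Agent.Results.MP_9f99c5_ag.HyperkahlerManifolds

open Pool.Agent.NV.Pub Pool.Agent.H55.Cone

/-- The cone conjecture for hyperkähler manifolds with second Betti number `b ≥ 5`.
`C` is a deformation class of compact hyperkähler manifolds of dimension `2n`, `X_i` a projective
member, `π : X_i → M` a birational contraction (for instance `M = X_i`), `f` a basis of the lattice
`NS(M)` and `G` the action of `Aut(M)` on it. Then `G` has a rational polyhedral fundamental domain
in `Nef(M) ∩ Eff(M)`. -/
theorem result {n b m : ℕ} (C : Family n b) (hC : C.Axioms) (hW : C.ConeAxioms) (hb : 5 ≤ b)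
    (i : C.I) (hi : C.Projective i) (a : Vec b) (f : Fin m → Vec b) (hf : C.IsContraction i a f)
    (G : Subgroup (GL (Fin m) ℤ)) (hG : C.IsAutomorphismGroup i f G) :
    HasDomain G (C.nefEff i f) :=
  Family.cone_conjecture hC hW hb hi hf hG

end Pool.Agent.Results.MP_9f99c5_ag.HyperkahlerManifolds
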