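import Pool.Agent.NVC.Gram

/-!
# NVC/Wall : the walls and the nef cone

PROOFS. `isWallSet`: `stable`: `γ (comb e w) = comb e (act g w)`, `act g (intVec w) = intVec (g.val.mulVec w)`
(`SymCone.act_intVec`), `ConeAxioms.mon`; `neg`: `ConeAxioms.neg`; `bounded`: `wall_bound`, `form_comb`; `ample`: `ConeAxioms.ne`,
`orth_period`.
`nef_iff`, with `A = comb e (intVec h)`, `v = comb e x`, `per i x₀ y₀` (`per_exists`). `→`: the conditions `0 ≤ q(v,v)`, `0 ≤ q(v,A)`,
`0 ≤ q(v,s)` for the walls `s` with `q(A,s) ≥ 0` (so `> 0` by `ConeAxioms.ne`) are closed in `v` and hold on `kahler i`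
by `kahler_iff` (`LinearMap.continuous_of_finiteDimensional`). `←`: for `t > 0` `v + t A ∈ kahler i` by `kahler_iff` with base `A`
(`orth_period`; `q(v + tA, v + tA) ≥ t² q(A,A) > 0`, `q(v + tA, A) ≥ t q(A,A) > 0`; an MBM class `s` orthogonal to
`x₀, y₀` is a line bundle class by `wall_mem`, `cls_range`, so `s = comb e (intVec w)` with `w ∈ walls`; if `q(s,A) > 0`
then `q(s, v) ≥ 0`), and `v + t A → v` as `t → 0`.
`kahler_of_nef`: the same with `q(v,v) > 0` etc. directly from `kahler_iff`.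
-/

set_option autoImplicit false

open Module

namespace Pool.Agent.NV

open Pool.Agent.H93Cone Pool.Agent.SymCone

namespace HKClass

variable {n b : ℕ} {C : HKClass n b} {i : C.I} {ρ : ℕ} {e : Fin ρ → Vec b}

/-- The MBM classes of type `(1,1)` in coordinates. -/
def walls (C : HKClass n b) {ρ : ℕ} (e : Fin ρ → Vec b) : Set (Fin ρ → ℤ) :=
  {w | comb e (intVec w) ∈ C.S}

private theorem wall_act_intVec {m : ℕ} (g : Matrix (Fin m) (Fin m) ℤ) (w : Fin m → ℤ) :
    intVec (g.mulVec w) = act g (intVec w) := by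
  funext k
  simp [act, intVec, Matrix.mulVec, dotProduct]

private theorem wall_comb_neg {m : ℕ} (f : Fin m → Vec b) (w : Fin m → ℤ) :
    comb f (intVec (-w)) = -comb f (intVec w) := by
  simp [comb, intVec]

private theorem wall_closure (K : Set (Vec b)) (F : Vec b → ℝ) (hF : Continuous F)
    (h : ∀ v ∈ K, 0 ≤ F v) : ∀ v ∈ closure K, 0 ≤ F v := by
  intro v hv
  have h1 : closure K ⊆ {u | 0 ≤ F u} :=
    closure_minimal h (isClosed_le continuous_const hF)
  exact h1 hv

private theorem wall_cont_sq (C : HKClass n b) : Continuous (fun v : Vec b => C.q v v) := by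
  have h : ∀ v : Vec b, C.q v v = ∑ k, v k * C.q (Pi.single k 1) v := by
    intro v
    conv_lhs => rw [show C.q v = C.q (∑ k, v k • (Pi.single k 1 : Vec b)) from by
      rw [← pi_eq_sum_univ' v]]
    simp [map_sum]
  simp_rw [h]
  refine continuous_finsetSum _ fun k _ => ?_
  exact (continuous_apply k).mul (LinearMap.continuous_of_finiteDimensional _)

private theorem wall_line (hC : C.Axioms) (he : C.IsBasisNS i e) {x₀ y₀ : Vec b}
    (hp : C.per i x₀ y₀) {s : Vec b} (hs : s ∈ C.S) (h1 : C.q s x₀ = 0) (h2 : C.q s y₀ = 0) :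
    ∃ w : Fin ρ → ℤ, s = comb e (intVec w) :=
  (he.line_iff s).1 ⟨hC.wall_mem s hs, (hC.cls_range i x₀ y₀ hp s).2 ⟨h1, h2⟩⟩

theorem isWallSet (hC : C.Axioms) (hW : C.ConeAxioms) (he : C.IsBasisNS i e)
    {B : Matrix (Fin ρ) (Fin ρ) ℤ} (hB : ∀ k l, (B k l : ℝ) = C.q (e k) (e l)) {h : Fin ρ → ℤ}
    (hA : comb e (intVec h) ∈ C.kahler i) {Γ : Subgroup (GL (Fin ρ) ℤ)}
    (hΓ : ∀ g ∈ Γ, ∃ γ ∈ C.Mon, (∀ y, (∀ k, C.q y (e k) = 0) → γ y = y) ∧
      ∀ x, γ (comb e x) = comb e (act g.val x)) :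
    IsWallSet B (intVec h) Γ (walls C e) := by
  obtain ⟨x₀, y₀, hp⟩ := hC.per_exists i
  refine ⟨?_, ?_, ?_, ?_⟩
  · intro g hg w hw
    obtain ⟨γ, hγ, -, h2⟩ := hΓ g hg
    have h3 : comb e (intVec (g.val.mulVec w)) = γ (comb e (intVec w)) := by
      rw [h2, wall_act_intVec]
    show comb e (intVec (g.val.mulVec w)) ∈ C.S
    rw [h3]
    exact hW.mon γ hγ _ hw
  · intro w hw
    show comb e (intVec (-w)) ∈ C.S
    rw [wall_comb_neg]
    exact hW.neg _ hw
  · obtain ⟨K, hK⟩ := hC.wall_bound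
    refine ⟨K, fun w hw => ?_⟩
    rw [form_comb hB]
    exact hK _ hw
  · intro w hw
    obtain ⟨h1, h2⟩ := orth_period hC he hp (intVec w)
    rw [form_comb hB, hC.symm]
    exact hW.ne i x₀ y₀ hp _ hA _ hw h1 h2

theorem nef_iff (hC : C.Axioms) (hW : C.ConeAxioms) (he : C.IsBasisNS i e)
    {B : Matrix (Fin ρ) (Fin ρ) ℤ} (hB : ∀ k l, (B k l : ℝ) = C.q (e k) (e l)) {h : Fin ρ → ℤ}
    (hA : comb e (intVec h) ∈ C.kahler i) (x : Fin ρ → ℝ) :
    C.Nef i (comb e x) ↔ x ∈ chamber B (intVec h) (walls C e) := by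
  obtain ⟨x₀, y₀, hp⟩ := hC.per_exists i
  have hiff := hC.kahler_iff i x₀ y₀ hp _ hA
  constructor
  · intro hn
    refine ⟨⟨?_, ?_⟩, ?_⟩
    · rw [form_comb hB]
      refine wall_closure (C.kahler i) (fun v => C.q v v) (wall_cont_sq C) ?_ _ hn
      intro v hv
      exact ((hiff v).1 hv).2.2.1.le
    · rw [form_comb hB]
      refine wall_closure (C.kahler i) (fun v => C.q (comb e (intVec h)) v)
        (LinearMap.continuous_of_finiteDimensional _) ?_ _ hn
      intro v hv
      have := ((hiff v).1 hv).2.2.2.1.le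
      rwa [hC.symm] at this
    · intro w hw hhw
      obtain ⟨h1, h2⟩ := orth_period hC he hp (intVec w)
      rw [form_comb hB] at hhw ⊢
      have hne := hW.ne i x₀ y₀ hp _ hA _ hw h1 h2
      have hpos : 0 < C.q (comb e (intVec w)) (comb e (intVec h)) := by
        rw [hC.symm] at hhw
        exact lt_of_le_of_ne hhw (Ne.symm hne)
      rw [hC.symm]
      refine wall_closure (C.kahler i) (fun v => C.q (comb e (intVec w)) v)
        (LinearMap.continuous_of_finiteDimensional _) ?_ _ hn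
      intro v hv
      exact (((hiff v).1 hv).2.2.2.2 _ hw h1 h2 hpos).le
  · rintro ⟨⟨hxx, hhx⟩, hwx⟩
    rw [form_comb hB] at hxx hhx
    have hAA : 0 < C.q (comb e (intVec h)) (comb e (intVec h)) := ((hiff _).1 hA).2.2.1
    have key : ∀ t : ℝ, 0 < t → comb e x + t • comb e (intVec h) ∈ C.kahler i := by
      intro t ht
      rw [hiff]
      obtain ⟨a1, a2⟩ := orth_period hC he hp x
      obtain ⟨b1, b2⟩ := orth_period hC he hp (intVec h)
      refine ⟨?_, ?_, ?_, ?_, ?_⟩
      · simp [a1, b1]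
      · simp [a2, b2]
      · have h3 : C.q (comb e x) (comb e (intVec h)) = C.q (comb e (intVec h)) (comb e x) :=
          hC.symm _ _
        simp only [map_add, map_smul, LinearMap.add_apply, LinearMap.smul_apply, smul_eq_mul, h3]
        have h4 := mul_pos ht (mul_pos ht hAA)
        have h5 := mul_nonneg ht.le hhx
        nlinarith
      · have h3 : C.q (comb e x) (comb e (intVec h)) = C.q (comb e (intVec h)) (comb e x) :=
          hC.symm _ _
        simp only [map_add, map_smul, LinearMap.add_apply, LinearMap.smul_apply, smul_eq_mul, h3]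
        have h4 := mul_pos ht hAA
        linarith
      · intro s hs h1 h2 h3
        obtain ⟨w, rfl⟩ := wall_line hC he hp hs h1 h2
        have h4 : 0 ≤ form B (intVec h) (intVec w) := by
          rw [form_comb hB, hC.symm]; exact h3.le
        have h5 := hwx w hs h4
        rw [form_comb hB, hC.symm] at h5
        simp only [map_add, map_smul, smul_eq_mul]
        have h6 := mul_pos ht h3
        linarith
    show comb e x ∈ closure (C.kahler i)
    have hlim : Filter.Tendsto (fun k : ℕ => comb e x + (1 / ((k : ℝ) + 1)) • comb e (intVec h))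
        Filter.atTop (nhds (comb e x + (0 : ℝ) • comb e (intVec h))) :=
      tendsto_const_nhds.add (tendsto_one_div_add_atTop_nhds_zero_nat.smul_const _)
    rw [zero_smul, add_zero] at hlim
    exact mem_closure_of_tendsto hlim (Filter.Eventually.of_forall fun k => key _ (by positivity))

/-- a class in the chamber, of positive square and orthogonal to no wall is Kähler -/
theorem kahler_of_chamber (hC : C.Axioms) (hW : C.ConeAxioms) (he : C.IsBasisNS i e)
    {B : Matrix (Fin ρ) (Fin ρ) ℤ} (hB : ∀ k l, (B k l : ℝ) = C.q (e k) (e l)) {h : Fin ρ → ℤ}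
    (hA : comb e (intVec h) ∈ C.kahler i) {x : Fin ρ → ℝ}
    (hx : x ∈ chamber B (intVec h) (walls C e)) (hxx : 0 < form B x x)
    (hxw : ∀ w ∈ walls C e, form B x (intVec w) ≠ 0) : comb e x ∈ C.kahler i := by
  obtain ⟨x₀, y₀, hp⟩ := hC.per_exists i
  have hiff := hC.kahler_iff i x₀ y₀ hp _ hA
  obtain ⟨⟨-, hhx⟩, hwx⟩ := hx
  rw [form_comb hB] at hxx hhx
  obtain ⟨a1, a2⟩ := orth_period hC he hp x
  rw [hiff]
  refine ⟨a1, a2, hxx, ?_, ?_⟩
  · refine lt_of_le_of_ne (by rw [hC.symm]; exact hhx) (fun h0 => ?_)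
    have hne : comb e x ≠ 0 := by
      intro h1
      rw [h1, map_zero] at hxx
      exact lt_irrefl _ hxx
    have := neg_of_orth hC hp hA a1 a2 h0.symm hne
    exact lt_asymm this hxx
  · intro s hs h1 h2 h3
    obtain ⟨w, rfl⟩ := wall_line hC he hp hs h1 h2
    have h4 : 0 ≤ form B (intVec h) (intVec w) := by
      rw [form_comb hB, hC.symm]; exact h3.le
    have h5 := hwx w hs h4
    have h6 := hxw w hs
    rw [form_comb hB, hC.symm] at h5 h6
    exact lt_of_le_of_ne h5 (Ne.symm h6)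

end HKClass

end Pool.Agent.NV
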